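import Pool.Agent.Work.MP_db9399_lh.Base
import Pool.Agent.Work.MP_db9399_lh_helper35.PAT
import Pool.Agent.Work.MP_db9399_sc_helper26.PALL
import Pool.Agent.Work.MP_db9399_sc_helper6.STEP
import Pool.Agent.Work.MP_db9399_sc_helper31.DEP
import Pool.Agent.Work.MP_db9399_sc_helper43.TUT
import Pool.Agent.Work.MP_db9399_sc_helper59.HIT

/-!
# THEOREM LCH, block PEALL: the rounds of the colours `e1 y`
-/

set_option autoImplicit false

namespace Pool.Agent.Work.MP_db9399_lh.helper90.PEALL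

open Finset Classical
open Pool.Agent.Work.MP_db9399_all (nb)
open Pool.Agent.Work.MP_db9399_px (LWalk hit ee)
open Pool.Agent.Work.MP_db9399_dn (NB IsMat Tot)
open Pool.Agent.Work.MP_db9399_sc (cut Crit Conn Env Fam Rnd Hv)
open Pool.Agent.Work.MP_db9399_bg (den cl LabP Good PN IsPat en enP Sep Near REnv r0 Deep Spr Ok
  Lbl bx c3f c3 rs rs_symm eR HPre Ix mem_nb mem_cl mem_PN den_nonneg c3f_inj mem_c3)
open Pool.Agent.Work.MP_db9399_lc (BL)

universe u

theorem pall : MP_db9399_sc.Stmt_PALL.{u} :=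
  MP_db9399_sc.helper26.stmt_PALL
    (MP_db9399_sc.helper6.stmt_STEP MP_db9399_sc.helper43.stmt_TUT
      MP_db9399_sc.helper59.stmt_HIT) MP_db9399_sc.helper31.stmt_DEP

section
variable {V : Type u} [Fintype V] {l m r K K1 S k w W1 d ν : ℕ} {g δ σ c1 ε0 : ℝ}
  {G : SimpleGraph V} {lab : V → Lh l m r K K1 S}

/-! ## Degrees into labels -/

theorem deg_le (hB : BL g ε0 G d) (hLab : LabP G d σ c1 lab) (v : V)
    (P : Finset (Lh l m r K K1 S)) :
    ((nb G v ∩ cl lab P).card : ℝ) ≤ den P * d + σ * d := by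
  have h1 := (abs_le.mp (hLab.deg v P)).2
  have h2 : ((nb G v).card : ℝ) ≤ d := by exact_mod_cast hB.deg v
  have h3 := mul_le_mul_of_nonneg_left h2 (den_nonneg P)
  linarith

theorem deg_ge (hB : BL g ε0 G d) (hLab : LabP G d σ c1 lab) (v : V)
    (P : Finset (Lh l m r K K1 S)) :
    den P * ((1 - ε0) * d) - σ * d ≤ ((nb G v ∩ cl lab P).card : ℝ) := by
  have h1 := (abs_le.mp (hLab.deg v P)).1
  have h3 := mul_le_mul_of_nonneg_left (hB.low v) (den_nonneg P)
  linarith

/-- neighbours following the last pattern of the part `i` -/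
noncomputable def NP (G : SimpleGraph V) (lab : V → Lh l m r K K1 S) (i : ZMod 3)
    (b : ZMod (2 * l + 1)) (v : V) : Finset V :=
  nb G v ∩ cl lab (PN (eP l m r K K1 S i) (eR l) b)

/-- those of the own part and the own label -/
noncomputable def NQ (G : SimpleGraph V) (lab : V → Lh l m r K K1 S) (v : V) : Finset V :=
  NP G lab (pt (lab v)) (lab v).1.2.1 v

theorem mem_eP {i : ZMod 3} {b : ZMod (2 * l + 1)} {t : Lh l m r K K1 S} :
    t ∈ eP l m r K K1 S i b ↔ t.1.2.1 = b ∧ pt t = i := by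
  unfold eP
  rw [mem_filter]
  simp only [Finset.mem_univ, true_and]

theorem mem_PNe {i : ZMod 3} {b : ZMod (2 * l + 1)} {t : Lh l m r K K1 S} :
    t ∈ PN (eP l m r K K1 S i) (eR l) b ↔ rs b t.1.2.1 ∧ pt t = i := by
  rw [mem_PN]
  constructor
  · rintro ⟨b', h1, h2⟩
    rw [mem_eP] at h2
    rw [h2.1]
    exact ⟨h1, h2.2⟩
  · intro h
    exact ⟨t.1.2.1, h.1, mem_eP.mpr ⟨rfl, h.2⟩⟩

theorem mem_NP {i : ZMod 3} {b : ZMod (2 * l + 1)} {v x : V} :
    x ∈ NP G lab i b v ↔ G.Adj v x ∧ rs b (lab x).1.2.1 ∧ pt (lab x) = i := by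
  unfold NP
  rw [Finset.mem_inter, mem_nb, mem_cl, mem_PNe]

theorem mem_NQ {v x : V} :
    x ∈ NQ G lab v ↔ G.Adj v x ∧ rs (lab v).1.2.1 (lab x).1.2.1 ∧ pt (lab x) = pt (lab v) := by
  unfold NQ
  rw [mem_NP]

theorem den_PNe (hl : 1 ≤ l) (i : ZMod 3) (b : ZMod (2 * l + 1)) :
    den (PN (eP l m r K K1 S i) (eR l) b) = 2 / (3 * (2 * (l : ℝ) + 1)) := by
  rw [(MP_db9399_lh.helper35.pat_e (m := m) (r := r) (K := K) (K1 := K1) (S := S) hl i).den_PN b]
  push_cast
  ring

theorem NQ_le (hl : 1 ≤ l) (hB : BL g ε0 G d) (hLab : LabP G d σ c1 lab) (v : V) :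
    ((NQ G lab v).card : ℝ) ≤ qe l d + σ * d := by
  have h := deg_le hB hLab v (PN (eP l m r K K1 S (pt (lab v))) (eR l) (lab v).1.2.1)
  rw [den_PNe hl] at h
  unfold NQ NP qe
  have e : 2 / (3 * (2 * (l : ℝ) + 1)) * d = 2 * (d : ℝ) / (3 * (2 * l + 1)) := by ring
  rw [e] at h
  exact h

theorem NQ_ge (hl : 1 ≤ l) (hB : BL g ε0 G d) (hLab : LabP G d σ c1 lab) (v : V) :
    (1 - ε0) * qe l d - σ * d ≤ ((NQ G lab v).card : ℝ) := by
  have h := deg_ge hB hLab v (PN (eP l m r K K1 S (pt (lab v))) (eR l) (lab v).1.2.1)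
  rw [den_PNe hl] at h
  unfold NQ NP qe
  have e : 2 / (3 * (2 * (l : ℝ) + 1)) * ((1 - ε0) * d) =
      (1 - ε0) * (2 * (d : ℝ) / (3 * (2 * l + 1))) := by
    ring
  rw [e] at h
  exact h

/-- the vertices in the cell `a` -/
noncomputable def Vk (lab : V → Lh l m r K K1 S) (a : ZMod (2 * m + 1)) : Finset V :=
  univ.filter (fun v => ce (lab v) = a)

theorem mem_Vk {a : ZMod (2 * m + 1)} {v : V} : v ∈ Vk lab a ↔ ce (lab v) = a := by
  unfold Vk
  rw [mem_filter]
  simp only [Finset.mem_univ, true_and]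

theorem cell_le (hB : BL g ε0 G d) (hLab : LabP G d σ c1 lab) (a : ZMod (2 * m + 1)) (v : V) :
    ((nb G v ∩ Vk lab a).card : ℝ) ≤ (d : ℝ) / (2 * m + 1) + σ * d := by
  have h := deg_le hB hLab v (cy {a} univ)
  have e1 : cl lab (cy {a} univ) = Vk lab a := by
    ext x
    rw [mem_cl, mem_cy, mem_Vk, mem_singleton]
    simp
  rw [den_cy, e1, card_univ, card_core, card_singleton] at h
  have h2 : (0 : ℝ) < 2 * (l : ℝ) + 1 := by positivity
  have h3 : (0 : ℝ) < (S : ℝ) + 1 := by positivity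
  have e : ((1 : ℕ) : ℝ) / (2 * (m : ℝ) + 1) *
      (((((2 * l + 1) * (3 * (S + 1))) : ℕ) : ℝ) / ((2 * (l : ℝ) + 1) * (3 * ((S : ℝ) + 1)))) * d =
      (d : ℝ) / (2 * m + 1) := by
    push_cast
    field_simp
  rw [e] at h
  exact h

/-- vertices with split label `y1` or `y2` -/
theorem spl_le (hB : BL g ε0 G d) (hLab : LabP G d σ c1 lab) (y1 y2 : Fin (K1 + 1)) (v : V) :
    ((nb G v ∩ univ.filter (fun x => sp (lab x) = y1 ∨
      sp (lab x) = y2)).card : ℝ) ≤ 2 * (d : ℝ) / (K1 + 1) + σ * d := by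
  have h := deg_le hB hLab v (bb univ univ univ univ univ {y1, y2})
  have e1 : cl lab (bb univ univ univ univ univ {y1, y2}) =
      univ.filter (fun x => sp (lab x) = y1 ∨ sp (lab x) = y2) := by
    ext x
    rw [mem_cl, mem_bb]
    simp
  have e2 : den (bb univ univ univ univ univ {y1, y2} : Finset (Lh l m r K K1 S)) ≤
      2 / ((K1 : ℝ) + 1) := by
    rw [den_bb]
    simp only [card_univ, card_core, card_zmod, Fintype.card_fin]
    have h1 : (2 * (m : ℝ) + 1) ≠ 0 := by positivity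
    have h2 : (2 * (l : ℝ) + 1) * (3 * ((S : ℝ) + 1)) ≠ 0 := by positivity
    have h3 : ((r : ℝ) + 1) ≠ 0 := by positivity
    have h4 : ((K : ℝ) + 1) ≠ 0 := by positivity
    push_cast
    rw [div_self h1, div_self h2, div_self h3, div_self h4]
    have h5 : (({y1, y2} : Finset (Fin (K1 + 1))).card : ℝ) ≤ 2 := by
      exact_mod_cast Finset.card_le_two
    simp only [one_mul]
    exact div_le_div_of_nonneg_right h5 (by positivity)
  rw [e1] at h
  have e3 := mul_le_mul_of_nonneg_right e2 (Nat.cast_nonneg d : (0 : ℝ) ≤ (d : ℝ))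
  have e4 : 2 / ((K1 : ℝ) + 1) * d = 2 * (d : ℝ) / (K1 + 1) := by ring
  rw [e4] at e3
  linarith

/-! ## The reserve graph -/

theorem Rf_sub {UH : Finset V} (v : V) : nb (Rf G UH lab) v ⊆ NQ G lab v := by
  intro x hx
  rw [mem_nb] at hx
  rw [mem_NQ]
  exact ⟨hx.1, hx.2.2.2.2.2, hx.2.2.2.2.1.symm⟩

theorem Rf_miss {UH : Finset V} {v : V} (hv : v ∉ UH) :
    NQ G lab v \ nb (Rf G UH lab) v ⊆
      (nb G v ∩ UH) ∪ (nb G v ∩ Vk lab (ce (lab v))) := by
  intro x hx
  rw [Finset.mem_sdiff, mem_NQ, mem_nb] at hx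
  rw [Finset.mem_union, Finset.mem_inter, Finset.mem_inter, mem_nb, mem_Vk]
  by_contra hcon
  push Not at hcon
  apply hx.2
  exact ⟨hx.1.1, hv, hcon.1 hx.1.1, fun h => hcon.2 hx.1.1 h.symm, hx.1.2.2.symm, hx.1.2.1⟩

omit [Fintype V] in
theorem Rf_le {UH : Finset V} : Rf G UH lab ≤ G := fun _ _ h => h.1

theorem nb_mono {F F' : SimpleGraph V} (h : F ≤ F') (v : V) : nb F v ⊆ nb F' v := by
  intro x hx
  rw [mem_nb] at hx ⊢
  exact h hx

/-! ## The matchings of the first rounds -/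

/-- index sets -/
theorem card_c3 (c : ZMod (2 * m + 1)) :
    (univ.filter (fun x : Ix m w => c ∈ c3 x.1 x.2.1)).card ≤ 3 * (m * w) := by
  have hsub : univ.filter (fun x : Ix m w => c ∈ c3 x.1 x.2.1) ⊆
      (univ : Finset (Fin 3 × (Fin m × Fin w))).image (fun z =>
        ((![c, c - ((z.2.1 : ℕ) + 1 : ℕ), c + ((z.2.1 : ℕ) + 1 : ℕ)] : Fin 3 → _) z.1,
          z.2.1, z.2.2)) := by
    intro x hx
    have h := (Finset.mem_filter.mp hx).2
    rw [mem_c3] at h
    rw [Finset.mem_image]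
    obtain ⟨a, h', s⟩ := x
    rcases h with h | h | h
    · refine ⟨(0, h', s), Finset.mem_univ _, ?_⟩
      simp only [Matrix.cons_val_zero]
      rw [h]
    · refine ⟨(1, h', s), Finset.mem_univ _, ?_⟩
      simp only [Matrix.cons_val_one, Matrix.cons_val_zero]
      rw [h]
      simp
    · refine ⟨(2, h', s), Finset.mem_univ _, ?_⟩
      simp only [Matrix.cons_val]
      rw [h]
      simp
  refine (Finset.card_le_card hsub).trans (Finset.card_image_le.trans ?_)
  rw [Finset.card_univ, Fintype.card_prod, Fintype.card_prod, Fintype.card_fin, Fintype.card_fin,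
    Fintype.card_fin]

theorem card_kap (c : ZMod (2 * m + 1)) :
    (univ.filter (fun x : Ix m w => x.1 = c)).card ≤ m * w := by
  have hsub : univ.filter (fun x : Ix m w => x.1 = c) ⊆
      (univ : Finset (Fin m × Fin w)).image (fun z => (c, z.1, z.2)) := by
    intro x hx
    have h := (Finset.mem_filter.mp hx).2
    rw [Finset.mem_image]
    obtain ⟨a, h', s⟩ := x
    refine ⟨(h', s), Finset.mem_univ _, ?_⟩
    simp only at h
    rw [h]
  refine (Finset.card_le_card hsub).trans (Finset.card_image_le.trans ?_)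
  rw [Finset.card_univ, Fintype.card_prod, Fintype.card_fin, Fintype.card_fin]

/-- all matchings of the first rounds -/
def DD (M : Ix m w → SimpleGraph V) : SimpleGraph V := ⨆ x, M x

omit [Fintype V] in
theorem DD_adj {M : Ix m w → SimpleGraph V} {v v' : V} :
    (DD M).Adj v v' ↔ ∃ x, (M x).Adj v v' := by
  unfold DD
  rw [SimpleGraph.iSup_adj]

theorem DD_deg {UH : Finset V} {c0 tu : V → Fin k} {e : Ix m w → Fin k}
    {τ : Fin w → Option (ZMod 3)} {ρ : Fin w → ZMod 3} {e1 : Fin W1 → Fin k} {tp : V → ZMod 3}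
    {c : V → Fin k} {wv : V → Fin k → V} {Nd M : Ix m w → SimpleGraph V}
    {O : Ix m w → Finset V} (hN : NDec ν G UH lab τ Nd)
    (hP : P0R g G d UH c0 tu lab e τ ρ e1 tp c wv Nd M O) (v : V) :
    (nb (DD M) v).card ≤ 4 * (m * w) := by
  have hsub : nb (DD M) v ⊆ (univ.filter (fun x : Ix m w => (nb (M x) v).Nonempty)).biUnion
      (fun x => nb (M x) v) := by
    intro y hy
    rw [mem_nb, DD_adj] at hy
    obtain ⟨x, hx⟩ := hy
    rw [Finset.mem_biUnion]
    exact ⟨x, Finset.mem_filter.mpr ⟨Finset.mem_univ _, y, mem_nb.mpr hx⟩, mem_nb.mpr hx⟩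
  have hidx : univ.filter (fun x : Ix m w => (nb (M x) v).Nonempty) ⊆
      univ.filter (fun x : Ix m w => ce (lab v) ∈ c3 x.1 x.2.1) ∪
        univ.filter (fun x : Ix m w => x.1 = kp (lab v)) := by
    intro x hx
    obtain ⟨y, hy⟩ := (Finset.mem_filter.mp hx).2
    have h1 := (hP.le x _ _ (mem_nb.mp hy)).2
    unfold Ub Jk at h1
    rw [Finset.mem_filter, Finset.mem_filter] at h1
    rw [Finset.mem_union, Finset.mem_filter, Finset.mem_filter]
    rcases h1.2 with h2 | h2
    · exact Or.inl ⟨Finset.mem_univ _, h2.2.2.1⟩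
    · right
      refine ⟨Finset.mem_univ _, ?_⟩
      by_contra hne
      exact h2.2.2.2.2 (hN.cov x v h2.2.1 h2.2.2.2.1 h2.2.2.1 (fun h => hne h.1.symm))
  have h1 : (nb (DD M) v).card ≤ (univ.filter (fun x : Ix m w => (nb (M x) v).Nonempty)).card := by
    refine (Finset.card_le_card hsub).trans (Finset.card_biUnion_le.trans ?_)
    calc ∑ x ∈ univ.filter (fun x : Ix m w => (nb (M x) v).Nonempty), (nb (M x) v).card
        ≤ ∑ _x ∈ univ.filter (fun x : Ix m w => (nb (M x) v).Nonempty), 1 :=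
          Finset.sum_le_sum fun x _ => hP.mat x v
      _ = _ := by simp
  have h2 := Finset.card_le_card hidx
  have h3 := Finset.card_union_le (univ.filter (fun x : Ix m w => ce (lab v) ∈ c3 x.1 x.2.1))
    (univ.filter (fun x : Ix m w => x.1 = kp (lab v)))
  have h4 := card_c3 (w := w) (ce (lab v))
  have h5 := card_kap (w := w) (kp (lab v))
  omega

/-! ## Forbidden vertices -/

/-- forbidden vertices in the round of the colour `b` -/
noncomputable def XX (UH : Finset V) (c0 tu : V → Fin k) (e : Ix m w → Fin k)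
    (τ : Fin w → Option (ZMod 3)) (e1 : Fin W1 → Fin k) (tp : V → ZMod 3)
    (wv : V → Fin k → V) (Kk : Fin W1 → SimpleGraph V) (b : Fin k) : Finset V :=
  (UH ∪ UW UH c0 tu e τ e1 tp wv b) ∪
    univ.filter (fun v => ∃ y, e1 y = b ∧ (nb (Kk y) v).Nonempty)

theorem XX_le {UH : Finset V} {c0 tu : V → Fin k} {EH : SimpleGraph V} {e : Ix m w → Fin k}
    {τ : Fin w → Option (ZMod 3)} {e1 : Fin W1 → Fin k}
    {sy : Fin W1 → Fin (K1 + 1) × Fin (K1 + 1)} {tp : V → ZMod 3} {c : V → Fin k}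
    {wv : V → Fin k → V} {Nd M : Ix m w → SimpleGraph V} {Kk : Fin W1 → SimpleGraph V} {δ2 : ℝ}
    (hB : BL g ε0 G d) (hLab : LabP G d σ c1 lab) (hH : HPre G UH c0 EH tu)
    (he1 : Function.Injective e1) (hU : UPar G d δ2 UH c0 tu lab e τ e1 sy tp c wv)
    (hL : Lft G UH lab sy Nd M Kk) (y : Fin W1) (v : V) :
    ((nb G v ∩ XX UH c0 tu e τ e1 tp wv Kk (e1 y)).card : ℝ) ≤
      2 + δ2 * d + (2 * (d : ℝ) / (K1 + 1) + σ * d) := by
  have hsub : nb G v ∩ XX UH c0 tu e τ e1 tp wv Kk (e1 y) ⊆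
      ((nb G v ∩ UH) ∪ (nb G v ∩ UW UH c0 tu e τ e1 tp wv (e1 y))) ∪
        (nb G v ∩ univ.filter (fun x => sp (lab x) = (sy y).1 ∨
          sp (lab x) = (sy y).2)) := by
    intro x hx
    rw [Finset.mem_inter] at hx
    obtain ⟨hx1, hx2⟩ := hx
    unfold XX at hx2
    rw [Finset.mem_union, Finset.mem_union] at hx2
    rw [Finset.mem_union, Finset.mem_union, Finset.mem_inter, Finset.mem_inter,
      Finset.mem_inter]
    rcases hx2 with (h | h) | h
    · exact Or.inl (Or.inl ⟨hx1, h⟩)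
    · exact Or.inl (Or.inr ⟨hx1, h⟩)
    · obtain ⟨y', hy', z, hz⟩ := (Finset.mem_filter.mp h).2
      have hyy : y' = y := he1 hy'
      subst hyy
      have h1 := (hL.mem y' x z (mem_nb.mp hz)).2.2
      exact Or.inr ⟨hx1, Finset.mem_filter.mpr ⟨Finset.mem_univ _, h1⟩⟩
  have h1 := (Finset.card_le_card hsub).trans (Finset.card_union_le _ _)
  have h2 := Finset.card_union_le (nb G v ∩ UH) (nb G v ∩ UW UH c0 tu e τ e1 tp wv (e1 y))
  have h3 := hH.two v
  have h4 := hU.spr v (e1 y)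
  have h5 := spl_le hB hLab (sy y).1 (sy y).2 v
  have h6 : ((nb G v ∩ XX UH c0 tu e τ e1 tp wv Kk (e1 y)).card : ℝ) ≤
      2 + ((nb G v ∩ UW UH c0 tu e τ e1 tp wv (e1 y)).card : ℝ) +
        ((nb G v ∩ univ.filter (fun x => sp (lab x) = (sy y).1 ∨
          sp (lab x) = (sy y).2)).card : ℝ) := by
    have : (nb G v ∩ XX UH c0 tu e τ e1 tp wv Kk (e1 y)).card ≤
      2 + (nb G v ∩ UW UH c0 tu e τ e1 tp wv (e1 y)).card +
        (nb G v ∩ univ.filter (fun x => sp (lab x) = (sy y).1 ∨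
          sp (lab x) = (sy y).2)).card := by omega
    exact_mod_cast this
  linarith

/-! ## No almost bipartite parts in the reserve graph -/

theorem sum_inter_comm (F : SimpleGraph V) (S T : Finset V) :
    ∑ s ∈ S, (nb F s ∩ T).card = ∑ t ∈ T, (nb F t ∩ S).card := by
  have h := Finset.sum_card_bipartiteAbove_eq_sum_card_bipartiteBelow (s := S) (t := T)
    (fun x y => F.Adj x y)
  have e1 : ∀ s, Finset.bipartiteAbove (fun x y => F.Adj x y) T s = nb F s ∩ T := by
    intro s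
    ext x
    rw [Finset.mem_bipartiteAbove, Finset.mem_inter, mem_nb]
    exact and_comm
  have e2 : ∀ t, Finset.bipartiteBelow (fun x y => F.Adj x y) S t = nb F t ∩ S := by
    intro t
    ext x
    rw [Finset.mem_bipartiteBelow, Finset.mem_inter, mem_nb, SimpleGraph.adj_comm]
    exact and_comm
  simpa only [e1, e2] using h

theorem enP_eq (A B : Finset V) : ∑ i, enP G lab (eP l m r K K1 S i) (eR l) A B =
    (∑ t ∈ A, ((NQ G lab t \ B).card : ℝ)) + ∑ s ∈ B, ((NQ G lab s \ A).card : ℝ) := by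
  have key : ∀ A B : Finset V, ∑ i, ∑ b, ∑ t ∈ A ∩ cl lab (eP l m r K K1 S i b),
      (((nb G t ∩ cl lab (PN (eP l m r K K1 S i) (eR l) b)) \ B).card : ℝ) =
      ∑ t ∈ A, ((NQ G lab t \ B).card : ℝ) := by
    intro A B
    have e1 : ∀ i b, A ∩ cl lab (eP l m r K K1 S i b) =
        (A.filter (fun t => pt (lab t) = i)).filter (fun t => (lab t).1.2.1 = b) := by
      intro i b
      ext t
      rw [Finset.mem_inter, mem_cl, mem_eP, Finset.mem_filter, Finset.mem_filter]
      tauto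
    rw [← Finset.sum_fiberwise A (fun t => pt (lab t))
      (fun t => ((NQ G lab t \ B).card : ℝ))]
    refine Finset.sum_congr rfl fun i _ => ?_
    rw [← Finset.sum_fiberwise (A.filter (fun t => pt (lab t) = i)) (fun t => (lab t).1.2.1)
      (fun t => ((NQ G lab t \ B).card : ℝ))]
    refine Finset.sum_congr rfl fun b _ => ?_
    rw [e1 i b]
    refine Finset.sum_congr rfl fun t ht => ?_
    have h1 := Finset.mem_filter.mp ht
    have h2 := (Finset.mem_filter.mp h1.1).2
    unfold NQ NP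
    rw [h1.2, h2]
  have e2 : ∀ i, enP G lab (eP l m r K K1 S i) (eR l) A B =
      (∑ b, ∑ t ∈ A ∩ cl lab (eP l m r K K1 S i b),
        (((nb G t ∩ cl lab (PN (eP l m r K K1 S i) (eR l) b)) \ B).card : ℝ)) +
      ∑ b, ∑ t ∈ B ∩ cl lab (eP l m r K K1 S i b),
        (((nb G t ∩ cl lab (PN (eP l m r K K1 S i) (eR l) b)) \ A).card : ℝ) := by
    intro i
    unfold enP
    rw [Finset.sum_add_distrib]
  rw [Finset.sum_congr rfl (fun i _ => e2 i), Finset.sum_add_distrib, key A B, key B A]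

theorem NB_Rf {UH : Finset V} {η cE q : ℝ} {dR : ℕ} (hη : 0 < η) (hηc : 20 * η ≤ cE)
    (hq : q = qe l d) (hq0 : 0 < q) (hSX : EndSX cE G d lab)
    (hloss : ∀ v, v ∉ UH → ((NQ G lab v \ nb (Rf G UH lab) v).card : ℝ) ≤
      η / 100 * q) (hdR0 : 0 < (dR : ℝ)) (hη1 : η ≤ 1 / 100)
    (hdR1 : (dR : ℝ) ≤ 101 / 100 * q) (hdeg : ∀ v, (nb (Rf G UH lab) v).card ≤ dR) :
    NB η (Rf G UH lab) dR (Hv η (Rf G UH lab) dR) := by
  intro S T hST hTL hcard
  set F := Rf G UH lab with hF
  have hFU : ∀ x y, F.Adj x y → x ∉ UH ∧ y ∉ UH := fun x y h => ⟨h.2.1, h.2.2.1⟩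
  have hTU : ∀ t ∈ T, t ∉ UH := by
    intro t ht htU
    have h1 := (Finset.mem_filter.mp (hTL ht)).2
    have h2 : nb F t = ∅ := by
      rw [Finset.eq_empty_iff_forall_notMem]
      intro x hx
      exact (hFU t x (mem_nb.mp hx)).1 htU
    rw [h2, Finset.card_empty] at h1
    push_cast at h1
    have h3 : 0 < (1 - η / 16) * (dR : ℝ) := mul_pos (by linarith) hdR0
    linarith
  obtain ⟨S', hS'⟩ : ∃ S', S' = S \ UH := ⟨_, rfl⟩
  have hS'c : (S'.card : ℝ) ≤ (1 + η) * T.card := by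
    refine le_trans ?_ hcard
    rw [hS']
    exact_mod_cast Finset.card_le_card Finset.sdiff_subset
  have hST' : Disjoint T S' := by
    rw [hS']
    exact (Finset.disjoint_of_subset_left Finset.sdiff_subset hST).symm
  have hgoal : ∀ t ∈ T, nb F t \ S = nb F t \ S' := by
    intro t _
    ext x
    rw [Finset.mem_sdiff, Finset.mem_sdiff, hS', Finset.mem_sdiff]
    constructor
    · rintro ⟨h1, h2⟩
      exact ⟨h1, fun h => h2 h.1⟩
    · rintro ⟨h1, h2⟩
      exact ⟨h1, fun h => h2 ⟨h, (hFU t x (mem_nb.mp h1)).2⟩⟩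
  rw [Finset.sum_congr rfl (fun t ht => by rw [hgoal t ht])]
  -- the energy
  have h1 := hSX T S' hST'
  rw [enP_eq, ← hq] at h1
  have hl : ∀ A B : Finset V, (∀ t ∈ A, t ∉ UH) →
      ∑ t ∈ A, ((NQ G lab t \ B).card : ℝ) ≤
        ∑ t ∈ A, ((nb F t \ B).card : ℝ) + η / 100 * q * A.card := by
    intro A B hA
    have h2 : ∀ t ∈ A, ((NQ G lab t \ B).card : ℝ) ≤
        ((nb F t \ B).card : ℝ) + η / 100 * q := by
      intro t ht
      have h3 : NQ G lab t \ B ⊆ (nb F t \ B) ∪ (NQ G lab t \ nb F t) := by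
        intro x hx
        rw [Finset.mem_sdiff] at hx
        rw [Finset.mem_union, Finset.mem_sdiff, Finset.mem_sdiff]
        by_cases h4 : x ∈ nb F t
        · exact Or.inl ⟨h4, hx.2⟩
        · exact Or.inr ⟨hx.1, h4⟩
      have h5 := (Finset.card_le_card h3).trans (Finset.card_union_le _ _)
      have h6 : ((NQ G lab t \ B).card : ℝ) ≤ ((nb F t \ B).card : ℝ) +
          ((NQ G lab t \ nb F t).card : ℝ) := by exact_mod_cast h5
      linarith [hloss t (hA t ht)]
    refine (Finset.sum_le_sum h2).trans ?_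
    rw [Finset.sum_add_distrib, Finset.sum_const, nsmul_eq_mul]
    linarith
  have hSU : ∀ s ∈ S', s ∉ UH := by
    intro s hs
    rw [hS', Finset.mem_sdiff] at hs
    exact hs.2
  have h2 := hl T S' hTU
  have h3 := hl S' T hSU
  obtain ⟨E1, hE1⟩ : ∃ E1 : ℝ, E1 = ∑ t ∈ T, ((nb F t \ S').card : ℝ) := ⟨_, rfl⟩
  obtain ⟨E2, hE2⟩ : ∃ E2 : ℝ, E2 = ∑ s ∈ S', ((nb F s \ T).card : ℝ) := ⟨_, rfl⟩
  rw [← hE1] at h2 ⊢
  rw [← hE2] at h3
  -- double counting
  have hsplit : ∀ A B : Finset V, ∑ t ∈ A, ((nb F t \ B).card : ℝ) +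
      ((∑ t ∈ A, (nb F t ∩ B).card : ℕ) : ℝ) = ∑ t ∈ A, ((nb F t).card : ℝ) := by
    intro A B
    push_cast
    rw [← Finset.sum_add_distrib]
    refine Finset.sum_congr rfl fun t _ => ?_
    have := Finset.card_sdiff_add_card_inter (nb F t) B
    exact_mod_cast this
  have h4 := hsplit T S'
  have h5 := hsplit S' T
  rw [sum_inter_comm F S' T] at h5
  rw [← hE1] at h4
  rw [← hE2] at h5
  have h6 : (1 - η / 16) * dR * T.card ≤ ∑ t ∈ T, ((nb F t).card : ℝ) := by
    have : ∑ _t ∈ T, (1 - η / 16) * (dR : ℝ) ≤ ∑ t ∈ T, ((nb F t).card : ℝ) :=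
      Finset.sum_le_sum fun t ht => (Finset.mem_filter.mp (hTL ht)).2
    rw [Finset.sum_const, nsmul_eq_mul] at this
    linarith
  have h7 : ∑ s ∈ S', ((nb F s).card : ℝ) ≤ dR * S'.card := by
    have : ∑ s ∈ S', ((nb F s).card : ℝ) ≤ ∑ _s ∈ S', (dR : ℝ) :=
      Finset.sum_le_sum fun s _ => by exact_mod_cast hdeg s
    rw [Finset.sum_const, nsmul_eq_mul] at this
    linarith
  have hT0 : (0 : ℝ) ≤ T.card := Nat.cast_nonneg _
  have hS0 : (0 : ℝ) ≤ S'.card := Nat.cast_nonneg _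
  have h8 : cE * q * ((T.card : ℝ) + S'.card) ≤ 2 * E1 + dR * S'.card -
      (1 - η / 16) * dR * T.card + η / 100 * q * (T.card + S'.card) := by
    linarith
  have h9 : (dR : ℝ) * S'.card ≤ dR * ((1 + η) * T.card) := mul_le_mul_of_nonneg_left hS'c hdR0.le
  have h10 : 19 * η * q * T.card ≤ (cE - η / 100) * q * (T.card + S'.card) := by
    have i1 : 19 * η ≤ cE - η / 100 := by linarith
    have i2 : 19 * η * (q * T.card) ≤ (cE - η / 100) * (q * T.card) :=
      mul_le_mul_of_nonneg_right i1 (by positivity)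
    have i3 : 0 ≤ (cE - η / 100) * (q * S'.card) :=
      mul_nonneg (by linarith) (by positivity)
    linarith
  have h11 : 19 * η * q * T.card ≤ 2 * E1 + dR * ((17 / 16) * η * T.card) := by linarith
  have h12 : η * dR * T.card * 18 ≤ 19 * η * q * T.card := by
    have : η * T.card * (18 * dR) ≤ η * T.card * (19 * q) :=
      mul_le_mul_of_nonneg_left (by linarith) (by positivity)
    linarith
  have h13 : 0 ≤ η * dR * T.card := by positivity
  linarith

/-! ## The situation of a round -/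

/-- the vertices of the part `i` -/
noncomputable def Vp (lab : V → Lh l m r K K1 S) (i : ZMod 3) : Finset V :=
  univ.filter (fun v => pt (lab v) = i)

theorem mem_Vp {i : ZMod 3} {v : V} : v ∈ Vp lab i ↔ pt (lab v) = i := by
  unfold Vp
  rw [mem_filter]
  simp only [Finset.mem_univ, true_and]

theorem renv {UH X : Finset V} {D : SimpleGraph V} {δ' a1 a2 a3 : ℝ} (i : ZMod 3)
    (hUX : UH ⊆ X) (hX : ∀ v, ((nb G v ∩ X).card : ℝ) ≤ a1)
    (hloss : ∀ v, v ∉ UH → ((NQ G lab v \ nb (Rf G UH lab) v).card : ℝ) ≤ a2)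
    (hD : ∀ v, ((nb D v).card : ℝ) ≤ a3) (h0 : 0 ≤ a2) (h1 : 0 ≤ a3)
    (hs : a1 + a2 + a3 ≤ δ' * qe l d) (hs0 : 0 ≤ δ' * qe l d) :
    REnv G (Rf G UH lab \ D) (qe l d) δ' lab (eP l m r K K1 S i) (eR l) (Vp lab i \ X) ∅ where
  FG x y h := by
    rw [SimpleGraph.sdiff_adj] at h
    exact h.1.1
  JU := Finset.empty_subset _
  UP v hv _ := by
    rw [Finset.mem_sdiff, mem_Vp] at hv
    exact ⟨(lab v).1.2.1, mem_eP.mpr ⟨rfl, hv.1⟩⟩
  JP v hv := absurd hv (Finset.notMem_empty _)
  FF b v _ hb x hx _ hvx := by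
    rw [SimpleGraph.sdiff_adj] at hvx
    rw [mem_eP] at hb
    rw [Finset.mem_sdiff, mem_Vp] at hx
    rw [mem_PNe, ← hb.1]
    exact ⟨hvx.1.2.2.2.2.2, hx.1⟩
  JJ v hv := absurd hv (Finset.notMem_empty _)
  miss b v hv hb := by
    rw [mem_eP] at hb
    obtain ⟨hb1, hb2⟩ := hb
    subst hb1
    subst hb2
    rw [Finset.mem_sdiff] at hv
    have hvU : v ∉ UH := fun h => hv.2 (hUX h)
    have hsub : (nb G v ∩ cl lab (PN (eP l m r K K1 S (pt (lab v))) (eR l) (lab v).1.2.1)) \
        (nb (Rf G UH lab \ D) v ∩ (Vp lab (pt (lab v)) \ X)) ⊆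
        ((nb G v ∩ X) ∪ (NQ G lab v \ nb (Rf G UH lab) v)) ∪ nb D v := by
      intro x hx
      rw [Finset.mem_sdiff, Finset.mem_inter (s₁ := nb (Rf G UH lab \ D) v), mem_nb,
        SimpleGraph.sdiff_adj, Finset.mem_sdiff, mem_Vp] at hx
      rw [Finset.mem_union, Finset.mem_union, Finset.mem_inter, Finset.mem_sdiff]
      by_contra hcon
      push Not at hcon
      obtain ⟨⟨c1, c2⟩, c3⟩ := hcon
      apply hx.2
      have h5 := (Finset.mem_inter.mp hx.1).2
      rw [mem_cl, mem_PNe] at h5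
      exact ⟨⟨mem_nb.mp (c2 hx.1), fun h => c3 (mem_nb.mpr h)⟩, h5.2,
        c1 (Finset.mem_inter.mp hx.1).1⟩
    have h2 := (Finset.card_le_card hsub).trans (Finset.card_union_le _ _)
    have h3 := Finset.card_union_le (nb G v ∩ X) (NQ G lab v \ nb (Rf G UH lab) v)
    have h4 : (((nb G v ∩ cl lab (PN (eP l m r K K1 S (pt (lab v))) (eR l) (lab v).1.2.1)) \
        (nb (Rf G UH lab \ D) v ∩ (Vp lab (pt (lab v)) \ X))).card : ℝ) ≤
        ((nb G v ∩ X).card : ℝ) + ((NQ G lab v \ nb (Rf G UH lab) v).card : ℝ) +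
          ((nb D v).card : ℝ) := by
      have := h2.trans (Nat.add_le_add_right h3 _)
      exact_mod_cast this
    linarith [hX v, hloss v hvU, hD v]
  out b v _ := by
    have hsub : (nb G v ∩ cl lab (PN (eP l m r K K1 S i) (eR l) b)) \ (Vp lab i \ X) ⊆
        nb G v ∩ X := by
      intro x hx
      rw [Finset.mem_sdiff, Finset.mem_inter, Finset.mem_sdiff, mem_cl, mem_PNe, mem_Vp] at hx
      rw [Finset.mem_inter]
      refine ⟨hx.1.1, ?_⟩
      by_contra hcon
      exact hx.2 ⟨hx.1.2.2, hcon⟩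
    have h2 : (((nb G v ∩ cl lab (PN (eP l m r K K1 S i) (eR l) b)) \
        (Vp lab i \ X)).card : ℝ) ≤
        ((nb G v ∩ X).card : ℝ) := by exact_mod_cast Finset.card_le_card hsub
    linarith [hX v]
  junk v := by
    rw [Finset.inter_empty, Finset.card_empty]
    push_cast
    exact hs0
  jdeg v hv := absurd hv (Finset.notMem_empty _)

/-- a connected set lies inside one part -/
theorem one_part {UH C : Finset V} {D : SimpleGraph V} (hC : Conn (Rf G UH lab \ D) C)
    {v0 : V} (hv0 : v0 ∈ C) : ∀ v ∈ C, pt (lab v) = pt (lab v0) := by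
  by_contra hcon
  push Not at hcon
  obtain ⟨v, hv, hne⟩ := hcon
  obtain ⟨a, ha, b, hb, hbn, hab⟩ := hC (C.filter (fun v => pt (lab v) = pt (lab v0)))
    (Finset.filter_subset _ _) ⟨v0, Finset.mem_filter.mpr ⟨hv0, rfl⟩⟩ (by
      intro h
      rw [← h] at hv
      exact hne (Finset.mem_filter.mp hv).2)
  apply hbn
  rw [Finset.mem_filter] at ha ⊢
  rw [SimpleGraph.sdiff_adj] at hab
  refine ⟨hb, ?_⟩
  rw [← ha.2]
  exact hab.1.2.2.2.2.1.symm

theorem cut_mono {F : SimpleGraph V} {U U' C : Finset V} (h : U' ⊆ U) : cut F U' C ≤ cut F U C := by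
  unfold cut
  refine Finset.sum_le_sum fun v _ => Finset.card_le_card ?_
  exact Finset.inter_subset_inter_left (Finset.sdiff_subset_sdiff h subset_rfl)

end

end Pool.Agent.Work.MP_db9399_lh.helper90.PEALL

namespace Pool.Agent.Work.MP_db9399_lh.helper90

open Finset Classical
open Pool.Agent.Work.MP_db9399_all (nb)
open Pool.Agent.Work.MP_db9399_dn (NB IsMat Tot)
open Pool.Agent.Work.MP_db9399_sc (cut Crit Conn Env Fam Rnd Hv)
open Pool.Agent.Work.MP_db9399_bg (den cl LabP Good PN IsPat en enP Sep Near REnv r0 Deep Spr Ok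
  Lbl bx c3f c3 rs rs_symm eR HPre Ix mem_nb mem_cl mem_PN den_nonneg c3f_inj mem_c3)
open Pool.Agent.Work.MP_db9399_lc (BL)
open PEALL

universe u

theorem stmt_PEALL : Stmt_PEALL.{u} := by
  intro g δ cE l hg hg1 hδ hcE hl
  obtain ⟨η, hη⟩ : ∃ η : ℝ, η = min (δ / 10) (min (cE / 20) (1 / 100)) := ⟨_, rfl⟩
  have hη0 : 0 < η := by
    rw [hη]
    refine lt_min (by linarith) (lt_min (by linarith) (by norm_num))
  have hη1 : η ≤ 1 / 100 := by
    rw [hη]
    exact (min_le_right _ _).trans (min_le_right _ _)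
  have hηδ : 10 * η ≤ δ := by
    have : η ≤ δ / 10 := by
      rw [hη]
      exact min_le_left _ _
    linarith
  have hηc : 20 * η ≤ cE := by
    have : η ≤ cE / 20 := by
      rw [hη]
      exact (min_le_right _ _).trans (min_le_left _ _)
    linarith
  clear hη
  have hl1 : 1 ≤ l := by omega
  obtain ⟨dP, hPALL⟩ := pall.{u} η (g / 40) hη0 hη1 (by linarith)
  have hΛ : (0 : ℝ) < 3 * (2 * l + 1) := by positivity
  refine ⟨⌈1000 * (3 * (2 * (l : ℝ) + 1)) / η⌉₊, η * g / (1500 * (3 * (2 * l + 1))),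
    by positivity, ?_⟩
  intro K1 hK1
  have hK1' : 1000 * (3 * (2 * (l : ℝ) + 1)) / η ≤ (K1 : ℝ) + 1 := by
    have h1 : 1000 * (3 * (2 * (l : ℝ) + 1)) / η ≤ (K1 : ℝ) :=
      (Nat.le_ceil _).trans (by exact_mod_cast hK1)
    linarith
  refine ⟨⌈500 * (3 * (2 * (l : ℝ) + 1)) / η⌉₊ + 1, ?_⟩
  intro m r K S hm
  have hm' : 500 * (3 * (2 * (l : ℝ) + 1)) / η ≤ 2 * (m : ℝ) + 1 := by
    have h1 : 500 * (3 * (2 * (l : ℝ) + 1)) / η ≤ (m : ℝ) := by
      refine (Nat.le_ceil _).trans ?_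
      have : ⌈500 * (3 * (2 * (l : ℝ) + 1)) / η⌉₊ ≤ m := by omega
      exact_mod_cast this
    have h2 : (0 : ℝ) ≤ m := Nat.cast_nonneg _
    linarith
  have hN0 : (0 : ℝ) < 2 * m + 1 := by positivity
  rw [div_le_iff₀ hη0] at hm'
  rw [div_le_iff₀ hη0] at hK1'
  refine ⟨η / (1000 * (3 * (2 * l + 1))), η / 1000, η / (1000 * (3 * (2 * l + 1))),
    max (⌈1000 * (3 * (2 * (l : ℝ) + 1)) / η⌉₊ + 1) (dP * (3 * (2 * l + 1))), by positivity,
    by positivity, by positivity, ?_⟩
  intro V _ G d k w W1 ν c1 UH c0 EH tu lab e τ ρ e1 sy tp c wv Nd M O Kk hd hB hLab hCap hSX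
    hH he1 hU hN hP hL hmw hrho hw1
  -- numbers
  have hd1 : ⌈1000 * (3 * (2 * (l : ℝ) + 1)) / η⌉₊ + 1 ≤ d := (le_max_left _ _).trans hd
  have hd2 : dP * (3 * (2 * l + 1)) ≤ d := (le_max_right _ _).trans hd
  have hdη : 1000 * (3 * (2 * (l : ℝ) + 1)) ≤ d * η := by
    have h1 : 1000 * (3 * (2 * (l : ℝ) + 1)) / η ≤ (d : ℝ) := by
      refine (Nat.le_ceil _).trans ?_
      have : ⌈1000 * (3 * (2 * (l : ℝ) + 1)) / η⌉₊ ≤ d := by omega
      exact_mod_cast this
    rwa [div_le_iff₀ hη0] at h1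
  have hdpos : (0 : ℝ) < d := by
    have : 0 < d := by omega
    exact_mod_cast this
  obtain ⟨q, hq⟩ : ∃ q : ℝ, q = qe l d := ⟨_, rfl⟩
  have hq' : q * (3 * (2 * l + 1)) = 2 * d := by
    rw [hq]
    unfold qe
    field_simp
  have hq0 : 0 < q := by
    rw [hq]
    unfold qe
    positivity
  obtain ⟨Λ, hΛe⟩ : ∃ Λ : ℝ, Λ = 3 * (2 * (l : ℝ) + 1) := ⟨_, rfl⟩
  rw [← hΛe] at hΛ hK1' hm' hdη hq'
  have A1 : 2 ≤ η / 1000 * q := by
    have h1 : 2000 * Λ ≤ η * q * Λ := by
      have h0 : η * (q * Λ) = η * (2 * d) := by rw [hq']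
      linarith
    have h2 : 2000 ≤ η * q := le_of_mul_le_mul_right h1 hΛ
    linarith
  have A2 : η / (1000 * (3 * (2 * (l : ℝ) + 1))) * d ≤ η / 1000 * q := by
    rw [← hΛe]
    have h1 : η / (1000 * Λ) * d = η / 2000 * q := by
      have : (d : ℝ) = q * Λ / 2 := by linarith
      rw [this]
      field_simp
      norm_num
    rw [h1]
    linarith [mul_pos hη0 hq0]
  have A3 : (d : ℝ) / (2 * m + 1) ≤ η / 1000 * q := by
    rw [div_le_iff₀ hN0]
    have h5 : q * (500 * Λ) ≤ q * ((2 * m + 1) * η) :=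
      mul_le_mul_of_nonneg_left hm' hq0.le
    linarith
  have A4 : 2 * (d : ℝ) / (K1 + 1) ≤ η / 1000 * q := by
    have hK0 : (0 : ℝ) < (K1 : ℝ) + 1 := by positivity
    rw [div_le_iff₀ hK0]
    have h5 : q * (1000 * Λ) ≤ q * (((K1 : ℝ) + 1) * η) :=
      mul_le_mul_of_nonneg_left hK1' hq0.le
    linarith
  -- the number of colours
  have A6 : (W1 : ℝ) * 24 ≤ g / 40 * q ∧ (W1 : ℝ) ≤ η / 200 * q := by
    rw [← hΛe] at hw1
    have h1 : η * g / (1500 * Λ) * d = η * g * q / 3000 := by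
      have : (d : ℝ) = q * Λ / 2 := by linarith
      rw [this]
      field_simp
      norm_num
    rw [h1] at hw1
    have h5 : η * g * q ≤ η * q * (1 / 10) := by
      have : η * q * g ≤ η * q * (1 / 10) := mul_le_mul_of_nonneg_left hg1 (by positivity)
      linarith
    have h6 : η * g * q ≤ g * q * (1 / 100) := by
      have : g * q * η ≤ g * q * (1 / 100) := mul_le_mul_of_nonneg_left hη1 (by positivity)
      linarith
    have h7 : 0 < g * q := by positivity
    have h8 : 0 < η * q := by positivity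
    constructor <;> linarith
  -- the degree
  obtain ⟨dR, hdR⟩ : ∃ dR : ℕ, dR = ⌈(1 + η / 100) * q⌉₊ := ⟨_, rfl⟩
  have hdR1 : (1 + η / 100) * q ≤ dR := by
    rw [hdR]
    exact Nat.le_ceil _
  have hdR2 : (dR : ℝ) ≤ (1 + 11 * η / 1000) * q := by
    have h1 : (dR : ℝ) < (1 + η / 100) * q + 1 := by
      rw [hdR]
      exact Nat.ceil_lt_add_one (by positivity)
    linarith
  have hηq : 0 < η * q := by positivity
  have hdRq : q ≤ dR := by linarith
  have hηq2 : η * q ≤ 1 / 100 * q := mul_le_mul_of_nonneg_right hη1 hq0.le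
  have hdRq2 : (dR : ℝ) ≤ 101 / 100 * q := by linarith
  have hηdR : η * q ≤ η * dR := mul_le_mul_of_nonneg_left hdRq hη0.le
  have hdR0 : (0 : ℝ) < dR := lt_of_lt_of_le hq0 hdRq
  have hdRP : dP ≤ dR := by
    have h1 : (dP : ℝ) * Λ ≤ d := by
      rw [hΛe]
      exact_mod_cast hd2
    have h2 : (dP : ℝ) ≤ dR := by
      have h3 : (dP : ℝ) * Λ ≤ q * Λ := by linarith
      exact (le_of_mul_le_mul_right h3 hΛ).trans hdRq
    exact_mod_cast h2
  -- degrees in the reserve graph
  have hdeg : ∀ v, (nb (Rf G UH lab) v).card ≤ dR := by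
    intro v
    have h1 : ((nb (Rf G UH lab) v).card : ℝ) ≤ ((NQ G lab v).card : ℝ) := by
      exact_mod_cast Finset.card_le_card (Rf_sub v)
    have h2 := NQ_le hl1 hB hLab v
    rw [← hq] at h2
    have h3 : ((nb (Rf G UH lab) v).card : ℝ) ≤ dR := by linarith
    exact_mod_cast h3
  have hloss : ∀ v, v ∉ UH → ((NQ G lab v \ nb (Rf G UH lab) v).card : ℝ) ≤
      3 * η / 1000 * q := by
    intro v hv
    have h1 := (Finset.card_le_card (Rf_miss (G := G) (lab := lab) hv)).trans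
      (Finset.card_union_le _ _)
    have h2 := hH.two v
    have h3 := cell_le hB hLab (ce (lab v)) v
    have h4 : ((NQ G lab v \ nb (Rf G UH lab) v).card : ℝ) ≤
        2 + ((nb G v ∩ Vk lab (ce (lab v))).card : ℝ) := by
      have : (NQ G lab v \ nb (Rf G UH lab) v).card ≤
        2 + (nb G v ∩ Vk lab (ce (lab v))).card := by omega
      exact_mod_cast this
    linarith
  have hNB : NB η (Rf G UH lab) dR (Hv η (Rf G UH lab) dR) :=
    NB_Rf hη0 hηc hq hq0 hSX (fun v hv => (hloss v hv).trans (by linarith)) hdR0 hη1 hdRq2 hdeg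
  have hHv : ∀ v, v ∉ UH → v ∈ Hv η (Rf G UH lab) dR := by
    intro v hv
    unfold Hv
    rw [Finset.mem_filter]
    refine ⟨Finset.mem_univ _, ?_⟩
    have h1 := NQ_ge hl1 hB hLab v
    rw [← hq] at h1
    have h2 := hloss v hv
    have h3 : ((NQ G lab v).card : ℝ) ≤
        ((NQ G lab v \ nb (Rf G UH lab) v).card : ℝ) +
          ((nb (Rf G UH lab) v).card : ℝ) := by
      have h4 : NQ G lab v ⊆
          (NQ G lab v \ nb (Rf G UH lab) v) ∪ nb (Rf G UH lab) v := by
        intro x hx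
        rw [Finset.mem_union, Finset.mem_sdiff]
        by_cases h5 : x ∈ nb (Rf G UH lab) v
        · exact Or.inr h5
        · exact Or.inl ⟨hx, h5⟩
      have := (Finset.card_le_card h4).trans (Finset.card_union_le _ _)
      exact_mod_cast this
    have h5 : (1 - η / 16) * (dR : ℝ) ≤ (1 - η / 16) * ((1 + 11 * η / 1000) * q) :=
      mul_le_mul_of_nonneg_left hdR2 (by linarith)
    linarith [mul_pos hη0 hηq]
  -- forbidden vertices
  have hXX : ∀ b ∈ (univ : Finset (Fin W1)).image e1, ∀ v,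
      ((nb G v ∩ XX UH c0 tu e τ e1 tp wv Kk b).card : ℝ) ≤ 4 * η / 1000 * q := by
    intro b hb v
    obtain ⟨y, _, rfl⟩ := Finset.mem_image.mp hb
    have h1 := XX_le hB hLab hH he1 hU hL y v
    linarith
  have hDD : ∀ v, ((nb (DD M) v).card : ℝ) ≤ 4 * η / 1000 * q := by
    intro v
    have h1 := DD_deg hN hP v
    have h2 : ((nb (DD M) v).card : ℝ) ≤ 4 * (m * w) := by exact_mod_cast h1
    have h3 : (m : ℝ) * w ≤ d / (2 * m + 1) := by
      rw [le_div_iff₀ hN0]
      linarith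
    linarith
  have hcardI : (((univ : Finset (Fin W1)).image e1).card : ℝ) ≤ W1 := by
    have h1 : ((univ : Finset (Fin W1)).image e1).card ≤ W1 := by
      refine Finset.card_image_le.trans ?_
      rw [Finset.card_univ, Fintype.card_fin]
    exact_mod_cast h1
  -- the sets missed in the first rounds
  have hTf : ∀ i : ZMod 3, Fintype.card {p : Fin m × Fin w // ρ p.2 = i} =
      m * (univ.filter (fun s => ρ s = i)).card := by
    intro i
    rw [Fintype.card_subtype]
    have h1 : (univ.filter (fun p : Fin m × Fin w => ρ p.2 = i)) =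
        (univ : Finset (Fin m)) ×ˢ (univ.filter (fun s => ρ s = i)) := by
      ext p
      rw [mem_product, mem_filter, mem_filter]
      simp only [Finset.mem_univ, true_and]
    rw [h1, card_product, card_univ, Fintype.card_fin]
  have hlg : ∀ i : ZMod 3, Fintype.card {p : Fin m × Fin w // ρ p.2 = i} *
      (3 * (2 * m + 1)) ≤ d := by
    intro i
    rw [hTf i]
    have h1 := hrho i
    have : (((m * (univ.filter (fun s => ρ s = i)).card) * (3 * (2 * m + 1)) : ℕ) : ℝ) ≤
        (d : ℕ) := by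
      push_cast
      linarith
    exact_mod_cast this
  obtain ⟨R, hR⟩ := hPALL (Rf G UH lab) dR k
    ((univ : Finset (Fin W1)).image e1) (DD M)
    (XX UH c0 tu e τ e1 tp wv Kk)
    (univ.filter (fun v => v ∉ UH ∧ inM (lab v) ∧ ∀ x, v ∉ O x)) hdRP hdeg hNB
    (by
      have h3 : η / 200 * q ≤ η / 200 * dR := mul_le_mul_of_nonneg_left hdRq (by positivity)
      linarith [A6.2])
    (by
      have h3 : g / 40 * q ≤ g / 40 * dR := mul_le_mul_of_nonneg_left hdRq (by positivity)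
      linarith [A6.1])
    (by
      intro v
      have h1 := hDD v
      linarith)
    (by
      intro b hb v
      have h1 : ((nb (Rf G UH lab) v ∩ XX UH c0 tu e τ e1 tp wv Kk b).card : ℝ) ≤
          ((nb G v ∩ XX UH c0 tu e τ e1 tp wv Kk b).card : ℝ) := by
        exact_mod_cast Finset.card_le_card
          (Finset.inter_subset_inter_right (nb_mono Rf_le v))
      have h2 := hXX b hb v
      linarith)
    (by
      intro b hb D C hD _ hCrit hConn
      -- the part of `C`
      have hCne : C.Nonempty := by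
        rw [Finset.nonempty_iff_ne_empty]
        intro h
        have h1 := hCrit.2.1
        rw [h, Finset.card_empty] at h1
        have : dR = 0 := by omega
        rw [this] at hdR0
        simp at hdR0
      obtain ⟨v0, hv0⟩ := hCne
      obtain ⟨i, hi⟩ : ∃ i, i = pt (lab v0) := ⟨_, rfl⟩
      have hCi : ∀ v ∈ C, pt (lab v) = i := by
        rw [hi]
        exact one_part hConn hv0
      have hren : REnv G (Rf G UH lab \ D) (qe l d) δ lab (eP l m r K K1 S i) (eR l)
          (Vp lab i \ XX UH c0 tu e τ e1 tp wv Kk b) ∅ := by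
        refine renv (a1 := 4 * η / 1000 * q) (a2 := 3 * η / 1000 * q)
          (a3 := η / 100 * dR) i ?_ (hXX b hb) hloss hD (by positivity) (by positivity) ?_ ?_
        · intro x hx
          unfold XX
          rw [Finset.mem_union, Finset.mem_union]
          exact Or.inl (Or.inl hx)
        · rw [← hq]
          have h1 : η / 100 * dR ≤ η / 100 * (101 / 100 * q) :=
            mul_le_mul_of_nonneg_left hdRq2 (by positivity)
          have h2 : 10 * η * q ≤ δ * q := mul_le_mul_of_nonneg_right hηδ hq0.le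
          linarith
        · rw [← hq]
          positivity
      have hCrit' : Crit (Rf G UH lab \ D) dR (Vp lab i \ XX UH c0 tu e τ e1 tp wv Kk b)
          ((Hv η (Rf G UH lab) dR ∩ Vp lab i) \ XX UH c0 tu e τ e1 tp wv Kk b) C := by
        refine ⟨?_, hCrit.2.1, ?_⟩
        · intro v hv
          have h1 := hCrit.1 hv
          rw [Finset.mem_sdiff] at h1 ⊢
          rw [Finset.mem_inter, mem_Vp]
          exact ⟨⟨h1.1, hCi v hv⟩, h1.2⟩
        · have h1 := cut_mono (F := Rf G UH lab \ D) (C := C)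
            (Finset.sdiff_subset_sdiff (Finset.subset_univ (Vp lab i))
              (subset_refl (XX UH c0 tu e τ e1 tp wv Kk b)))
          have h2 := hCrit.2.2
          omega
      have hcap := hCap i (Rf G UH lab \ D) (Vp lab i \ XX UH c0 tu e τ e1 tp wv Kk b)
        ((Hv η (Rf G UH lab) dR ∩ Vp lab i) \ XX UH c0 tu e τ e1 tp wv Kk b) C dR
        (Fintype.card {p : Fin m × Fin w // ρ p.2 = i})
        (fun a j => if h : j < Fintype.card {p : Fin m × Fin w // ρ p.2 = i} then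
          O (a, ((Fintype.equivFin {p : Fin m × Fin w // ρ p.2 = i}).symm ⟨j, h⟩).1) else ∅) hren
        (by rw [← hq]; exact hdRq) (by rw [← hq]; exact hdRq2)
        (Finset.sdiff_subset_sdiff Finset.inter_subset_right subset_rfl) hCrit' hConn (hlg i)
        (by
          intro a j hj
          simp only [dif_pos hj]
          have h1 := hP.spr (a, ((Fintype.equivFin {p : Fin m × Fin w // ρ p.2 = i}).symm
            ⟨j, hj⟩).1)
          have h2 := ((Fintype.equivFin {p : Fin m × Fin w // ρ p.2 = i}).symm ⟨j, hj⟩).2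
          simp only at h1
          rw [h2] at h1
          exact h1)
      refine hcap.trans ?_
      have hsub : C.filter (fun v => inM (lab v) ∧ ∀ a,
          ∀ j < Fintype.card {p : Fin m × Fin w // ρ p.2 = i},
          v ∉ (if h : j < Fintype.card {p : Fin m × Fin w // ρ p.2 = i} then
            O (a, ((Fintype.equivFin {p : Fin m × Fin w // ρ p.2 = i}).symm ⟨j, h⟩).1)
            else ∅)) ⊆
          C ∩ univ.filter (fun v => v ∉ UH ∧ inM (lab v) ∧ ∀ x, v ∉ O x) := by
        intro v hv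
        rw [Finset.mem_filter] at hv
        rw [Finset.mem_inter, Finset.mem_filter]
        obtain ⟨hvC, hvW, hvO⟩ := hv
        refine ⟨hvC, Finset.mem_univ _, ?_, hvW, ?_⟩
        · intro hvU
          have h1 := hCrit.1 hvC
          rw [Finset.mem_sdiff] at h1
          apply h1.2
          unfold XX
          rw [Finset.mem_union, Finset.mem_union]
          exact Or.inl (Or.inl hvU)
        · intro x hx
          obtain ⟨a, p⟩ := x
          have h0 : ρ p.2 = i := by
            have h1 := (hP.OU (a, p) v hx).2.2.1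
            rw [hCi v hvC] at h1
            exact h1.symm
          obtain ⟨z, hz⟩ : ∃ z : {p : Fin m × Fin w // ρ p.2 = i}, z = ⟨p, h0⟩ := ⟨_, rfl⟩
          have h1 := hvO a ((Fintype.equivFin {p : Fin m × Fin w // ρ p.2 = i}) z).val
            ((Fintype.equivFin {p : Fin m × Fin w // ρ p.2 = i}) z).isLt
          rw [dif_pos ((Fintype.equivFin {p : Fin m × Fin w // ρ p.2 = i}) z).isLt] at h1
          apply h1
          have h2 : (Fintype.equivFin {p : Fin m × Fin w // ρ p.2 = i}).symm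
              ⟨((Fintype.equivFin {p : Fin m × Fin w // ρ p.2 = i}) z).val,
                ((Fintype.equivFin {p : Fin m × Fin w // ρ p.2 = i}) z).isLt⟩ = z :=
            (Fintype.equivFin {p : Fin m × Fin w // ρ p.2 = i}).symm_apply_apply z
          rw [h2, hz]
          exact hx
      exact_mod_cast Finset.card_le_card hsub)
  -- the result
  have hI : ∀ y, e1 y ∈ (univ : Finset (Fin W1)).image e1 :=
    fun y => Finset.mem_image.mpr ⟨y, Finset.mem_univ _, rfl⟩
  have hXmem : ∀ y v, v ∈ XX UH c0 tu e τ e1 tp wv Kk (e1 y) ↔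
      (v ∈ UH ∨ v ∈ UW UH c0 tu e τ e1 tp wv (e1 y)) ∨ (nb (Kk y) v).Nonempty := by
    intro y v
    unfold XX
    rw [Finset.mem_union, Finset.mem_union, Finset.mem_filter]
    constructor
    · rintro (h | ⟨_, y', hy', h⟩)
      · exact Or.inl h
      · rw [he1 hy'] at h
        exact Or.inr h
    · rintro (h | h)
      · exact Or.inl h
      · exact Or.inr ⟨Finset.mem_univ _, y, rfl, h⟩
  have hOW : ∀ y, ∀ v ∈ R.O (e1 y), v ∉ UH ∧ inM (lab v) ∧ ∀ x, v ∉ O x := by
    intro y v hv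
    exact (Finset.mem_filter.mp (hR (e1 y) (hI y) hv)).2
  refine ⟨fun y => R.M (e1 y), fun y => R.O (e1 y), ?_⟩
  exact
    { le := by
        intro y v v' h
        have h1 := (R.MD _ _ _ h).2
        rw [hXmem] at h1
        push Not at h1
        exact ⟨R.Mle _ h, h1.1.2, Finset.not_nonempty_iff_eq_empty.mpr h1.2⟩
      mat := fun y => R.Mmat (e1 y)
      dis := by
        intro y y' hyy v v' h
        exact R.Md (e1 y) (e1 y') (fun h0 => hyy (he1 h0)) v v' h
      new := by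
        intro y v v' h x hx
        exact (R.MD _ _ _ h).1 (DD_adj.mpr ⟨x, hx⟩)
      cov := by
        intro y v hvU hvW hvK hvO
        refine R.Mcov (e1 y) (hI y) v (hHv v hvU) ?_ hvO
        rw [hXmem]
        rintro ((h | h) | h)
        · exact hvU h
        · exact hvW h
        · exact hvK h
      OW := fun y v hv => ⟨(hOW y v hv).1, (hOW y v hv).2.1⟩
      O1d := fun y y' hyy => R.Od (e1 y) (hI y) (e1 y') (hI y') (fun h0 => hyy (he1 h0))
      Od := by
        intro y x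
        rw [Finset.disjoint_left]
        intro v hv hx
        exact (hOW y v hv).2.2 x hx }

end Pool.Agent.Work.MP_db9399_lh.helper90
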